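import Mathlib

/-!
# The star number is unbounded on trees
-/

open SimpleGraph

namespace Pool.Agent.Results.MP_90e7d5_co.UnboundedOnForests

/-- `G` is a star-`k`-PCG: there are positive weights `w` of the vertices and `k` pairwise disjoint
closed intervals `[a i, b i]` (with `a i ≤ b i`) such that distinct `u`, `v` are adjacent if and
only if `w u + w v` lies in one of the intervals. -/
def StarPCG {V : Type} (G : SimpleGraph V) (k : ℕ) : Prop :=
  ∃ (w : V → ℝ) (a b : Fin k → ℝ), (∀ v, 0 < w v) ∧ (∀ i, a i ≤ b i) ∧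
    (∀ i j, i ≠ j → Disjoint (Set.Icc (a i) (b i)) (Set.Icc (a j) (b j))) ∧
    ∀ u v, u ≠ v → (G.Adj u v ↔ ∃ i, w u + w v ∈ Set.Icc (a i) (b i))

section combinatorial

variable {d k r : ℕ}

/-- Regular ternary subtrees. -/
def Good (w : List (Fin d) → ℝ) (a b : Fin k → ℝ) : List (Fin d) → List (Fin k) → Prop
  | _, [] => True
  | l, i :: τ => ∃ s : Finset (Fin d), 3 ≤ s.card ∧ ∀ x ∈ s,
      w l + w (x :: l) ∈ Set.Icc (a i) (b i) ∧ Good w a b (x :: l) τ

theorem decreasing {w : List (Fin d) → ℝ} {a b : Fin k → ℝ}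
    (H2 : ∀ (l : List (Fin d)) (x y z : Fin d), l.length + 2 ≤ r → x ≠ y → ∀ i,
      w (y :: l) + w (z :: x :: l) ∉ Set.Icc (a i) (b i))
    {l : List (Fin d)} {i j : Fin k} {τ : List (Fin k)} (hl : l.length + 2 ≤ r)
    (h : Good w a b l (i :: j :: τ)) : b j - a j < b i - a i := by
  obtain ⟨s, hs, h⟩ := h
  by_contra hcon
  push Not at hcon
  have hne : s.Nonempty := Finset.card_pos.1 (by omega)
  obtain ⟨x1, hx1, hmin⟩ := s.exists_min_image (fun x => w (x :: l)) hne
  obtain ⟨x3, hx3, hmax⟩ := s.exists_max_image (fun x => w (x :: l)) hne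
  have hmid : ((s.erase x1).erase x3).Nonempty := by
    apply Finset.card_pos.1
    have h1 := Finset.pred_card_le_card_erase (s := s) (a := x1)
    have h2 := Finset.pred_card_le_card_erase (s := s.erase x1) (a := x3)
    omega
  obtain ⟨x2, hx2⟩ := hmid
  simp only [Finset.mem_erase] at hx2
  obtain ⟨h23, h21, hx2⟩ := hx2
  obtain ⟨-, s', hs', h'⟩ := h x2 hx2
  obtain ⟨z, hz⟩ : s'.Nonempty := Finset.card_pos.1 (by omega)
  have hz' := (h' z hz).1
  have n1 := H2 l x2 x1 z hl h21 j
  have n3 := H2 l x2 x3 z hl h23 j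
  have m1 := (h x1 hx1).1
  have m3 := (h x3 hx3).1
  have o1 := hmin x2 hx2
  have o3 := hmax x2 hx2
  simp only [Set.mem_Icc, not_and, not_le] at n1 n3 m1 m3 hz'
  have p3 : b j < w (x3 :: l) + w (z :: x2 :: l) := n3 (by linarith)
  have p1 : w (x1 :: l) + w (z :: x2 :: l) < a j := by
    by_contra hc
    push Not at hc
    have := n1 hc
    linarith
  linarith

theorem chain_of_good {w : List (Fin d) → ℝ} {a b : Fin k → ℝ}
    (H2 : ∀ (l : List (Fin d)) (x y z : Fin d), l.length + 2 ≤ r → x ≠ y → ∀ i,
      w (y :: l) + w (z :: x :: l) ∉ Set.Icc (a i) (b i)) :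
    ∀ (τ : List (Fin k)) (l : List (Fin d)), l.length + τ.length ≤ r → Good w a b l τ →
      τ.IsChain (fun i j => b j - a j < b i - a i) := by
  intro τ
  induction τ with
  | nil => intro l _ _; exact List.isChain_nil
  | cons i τ ih =>
    intro l hl h
    cases τ with
    | nil => exact List.isChain_singleton _
    | cons j τ =>
      simp only [List.length_cons] at hl
      rw [List.isChain_cons_cons]
      refine ⟨decreasing H2 (by omega) h, ?_⟩
      obtain ⟨s, hs, h⟩ := h
      obtain ⟨x, hx⟩ : s.Nonempty := Finset.card_pos.1 (by omega)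
      exact ih (x :: l) (by simp only [List.length_cons]; omega) (h x hx).2

theorem exists_good {w : List (Fin d) → ℝ} {a b : Fin k → ℝ} {c : ℕ} (hk : k ≤ c)
    (hr : r ≤ c + 1) (hd : 2 * (c + 1) ^ (c + 1) < d)
    (H1 : ∀ (l : List (Fin d)) (x : Fin d), l.length + 1 ≤ r →
      ∃ i, w l + w (x :: l) ∈ Set.Icc (a i) (b i)) :
    ∀ (m : ℕ) (l : List (Fin d)), l.length + m = r →
      ∃ τ : List.Vector (Fin k) m, Good w a b l τ.toList := by
  intro m
  induction m with
  | zero => intro l _; exact ⟨List.Vector.nil, trivial⟩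
  | succ m ih =>
    intro l hl
    have h1 : ∀ x : Fin d, ∃ i, w l + w (x :: l) ∈ Set.Icc (a i) (b i) := fun x =>
      H1 l x (by omega)
    have h2 : ∀ x : Fin d, ∃ τ : List.Vector (Fin k) m, Good w a b (x :: l) τ.toList := fun x =>
      ih (x :: l) (by simp only [List.length_cons]; omega)
    choose f hf using h1
    choose g hg using h2
    have hcard : (Finset.univ : Finset (Fin k × List.Vector (Fin k) m)).card * 2 <
        (Finset.univ : Finset (Fin d)).card := by
      rw [Finset.card_univ, Fintype.card_prod, card_vector, Fintype.card_fin, Finset.card_univ,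
        Fintype.card_fin, ← pow_succ']
      have h3 : k ^ (m + 1) ≤ (c + 1) ^ (c + 1) :=
        calc k ^ (m + 1) ≤ (c + 1) ^ (m + 1) := Nat.pow_le_pow_left (by omega) _
          _ ≤ (c + 1) ^ (c + 1) := Nat.pow_le_pow_right (by omega) (by omega)
      omega
    obtain ⟨y, -, hy⟩ := Finset.exists_lt_card_fiber_of_mul_lt_card_of_maps_to
      (f := fun x : Fin d => (f x, g x)) (fun x _ => Finset.mem_univ _) hcard
    refine ⟨y.1 ::ᵥ y.2, ?_⟩
    rw [List.Vector.toList_cons]
    refine ⟨_, hy, ?_⟩
    intro x hx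
    simp only [Finset.mem_filter, Finset.mem_univ, true_and] at hx
    rw [← hx]
    exact ⟨hf x, hg x⟩

theorem contradiction {w : List (Fin d) → ℝ} {a b : Fin k → ℝ} {c : ℕ} (hk : k ≤ c)
    (hr : r = c + 1) (hd : 2 * (c + 1) ^ (c + 1) < d)
    (H1 : ∀ (l : List (Fin d)) (x : Fin d), l.length + 1 ≤ r →
      ∃ i, w l + w (x :: l) ∈ Set.Icc (a i) (b i))
    (H2 : ∀ (l : List (Fin d)) (x y z : Fin d), l.length + 2 ≤ r → x ≠ y → ∀ i,
      w (y :: l) + w (z :: x :: l) ∉ Set.Icc (a i) (b i)) : False := by
  obtain ⟨τ, hτ⟩ := exists_good hk hr.le hd H1 r [] (by simp)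
  have h1 := chain_of_good H2 τ.toList [] (by simp) hτ
  have h2 : τ.toList.Pairwise (fun i j => b j - a j < b i - a i) := by
    have : IsTrans (Fin k) (fun i j => b j - a j < b i - a i) := ⟨fun _ _ _ h1 h2 => h2.trans h1⟩
    exact List.isChain_iff_pairwise.1 h1
  have h3 : τ.toList.Nodup := by
    apply h2.imp
    intro i j h hij
    rw [hij] at h
    exact lt_irrefl _ h
  have h4 := h3.length_le_card
  rw [List.Vector.toList_length, Fintype.card_fin] at h4
  omega

end combinatorial

/-- The complete `d`-ary rooted tree of depth `r`; the vertices are the lists of length at most `r`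
of elements of `Fin d`. -/
def dTree (d r : ℕ) : SimpleGraph {l : List (Fin d) // l.length ≤ r} where
  Adj l m := (∃ x, l.1 = x :: m.1) ∨ (∃ x, m.1 = x :: l.1)
  symm := ⟨fun _ _ h => h.symm⟩
  loopless := ⟨by
    rintro l (⟨x, hx⟩ | ⟨x, hx⟩) <;>
    · have := congrArg List.length hx
      simp at this⟩

theorem dTree_isTree (d r : ℕ) : (dTree d r).IsTree := by
  rw [isTree_iff]
  constructor
  · have hroot : ∀ (l : List (Fin d)) (hl : l.length ≤ r),
        (dTree d r).Reachable ⟨l, hl⟩ ⟨[], by simp⟩ := by
      intro l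
      induction l with
      | nil => intro _; exact Reachable.refl _
      | cons x l ih =>
        intro hl
        have hl' : l.length ≤ r := by
          simp only [List.length_cons] at hl; omega
        refine Reachable.trans ?_ (ih hl')
        apply Adj.reachable
        exact Or.inl ⟨x, rfl⟩
    have : Nonempty {l : List (Fin d) // l.length ≤ r} := ⟨⟨[], by simp⟩⟩
    exact ⟨fun u v => (hroot u.1 u.2).trans (hroot v.1 v.2).symm⟩
  · intro v p hp
    -- take a vertex of maximal length on the cycle
    classical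
    obtain ⟨u, hu, hmax⟩ := p.support.toFinset.exists_max_image (fun v => v.1.length)
      ⟨v, by simp⟩
    rw [List.mem_toFinset] at hu
    have hq := hp.rotate hu
    have hsupp : ∀ x ∈ (p.rotate _ hu).support, x.1.length ≤ u.1.length := by
      intro x hx
      apply hmax
      rw [List.mem_toFinset]
      exact (Walk.mem_support_rotate_iff p u hu).1 hx
    have hpar : ∀ x, (dTree d r).Adj u x → x.1.length ≤ u.1.length → x.1 = u.1.tail := by
      intro x hx hle
      rcases hx with ⟨y, hy⟩ | ⟨y, hy⟩
      · rw [hy]; rfl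
      · rw [hy] at hle; simp at hle
    have h1 := hpar _ ((p.rotate _ hu).adj_snd hq.not_nil)
      (hsupp _ (Walk.getVert_mem_support _ _))
    have h2 := hpar _ ((p.rotate _ hu).adj_penultimate hq.not_nil).symm
      (hsupp _ (Walk.getVert_mem_support _ _))
    exact hq.snd_ne_penultimate (Subtype.ext (h1.trans h2.symm))

/-- The star number is unbounded on finite trees: for every `c` there is a finite tree that is not
a star-`k`-PCG for any `1 ≤ k ≤ c`. -/
theorem result (c : ℕ) : ∃ (V : Type) (_ : Fintype V) (G : SimpleGraph V), G.IsTree ∧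
    ∀ k, 1 ≤ k → k ≤ c → ¬ StarPCG G k := by
  classical
  set d := 2 * (c + 1) ^ (c + 1) + 1 with hd
  set r := c + 1 with hr
  refine ⟨{l : List (Fin d) // l.length ≤ r}, ?_, dTree d r, dTree_isTree d r, ?_⟩
  · exact (List.finite_length_le (Fin d) r).fintype
  · rintro k - hk ⟨w, a, b, -, -, -, hw⟩
    let w' : List (Fin d) → ℝ := fun l => if h : l.length ≤ r then w ⟨l, h⟩ else 0
    have hw' : ∀ l (h : l.length ≤ r), w' l = w ⟨l, h⟩ := fun l h => dif_pos h
    refine contradiction (w := w') (a := a) (b := b) hk hr (by omega) ?_ ?_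
    · intro l x hl
      have h1 : l.length ≤ r := by omega
      have h2 : (x :: l).length ≤ r := by simpa using hl
      rw [hw' l h1, hw' (x :: l) h2]
      apply (hw _ _ _).1
      · exact Or.inr ⟨x, rfl⟩
      · intro h
        have := congrArg (fun v => v.1.length) h
        simp at this
    · intro l x y z hl hxy i hmem
      have h1 : (y :: l).length ≤ r := by simp only [List.length_cons]; omega
      have h2 : (z :: x :: l).length ≤ r := by simp only [List.length_cons]; omega
      rw [hw' _ h1, hw' _ h2] at hmem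
      have hadj := (hw _ _ (by
        intro h
        have := congrArg (fun v => v.1.length) h
        simp at this)).2 ⟨i, hmem⟩
      rcases hadj with ⟨t, ht⟩ | ⟨t, ht⟩
      · have := congrArg List.length ht
        simp at this
      · simp only [List.cons.injEq] at ht
        exact hxy ht.2.1

end Pool.Agent.Results.MP_90e7d5_co.UnboundedOnForests
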